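import Mathlib
import Pool.Agent.Y6.M.Stm

/-! The kernel of the helical modes. -/

open Set Filter Topology
open scoped ComplexConjugate

set_option autoImplicit false

namespace Pool.Agent.Y708.EM.KERM

open Pool.Agent.Y6.M

lemma dt_comm (a b : C3) : dt a b = dt b a := by
  unfold dt
  exact Finset.sum_congr rfl fun j _ => mul_comm _ _

lemma cj_cj (a : C3) : cj (cj a) = a := by
  funext j
  simp [cj]

lemma dt_cj (a b : C3) : dt (cj a) (cj b) = conj (dt a b) := by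
  unfold dt cj
  rw [map_sum]
  exact Finset.sum_congr rfl fun j _ => by rw [map_mul]

lemma kc_neg (k : Z3) : kc (-k) = -kc k := by
  funext j
  simp [kc]

lemma kc_add (k l : Z3) : kc (k + l) = kc k + kc l := by
  funext j
  simp [kc]

lemma cj_kc (k : Z3) : cj (kc k) = kc k := by
  funext j
  simp [kc, cj]

lemma dt_neg (a b : C3) : dt a (-b) = -dt a b := by
  unfold dt
  simp

lemma dt_add (a b c : C3) : dt a (b + c) = dt a b + dt a c := by
  unfold dt
  simp only [Pi.add_apply, mul_add]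
  exact Finset.sum_add_distrib

lemma comp_le (h : Md → C3) (hF : Frame h) (i : Md) (j : Fin 3) : ‖h i j‖ ≤ 1 := by
  have h1 := hF.unit i
  have h2 : dt (h i) (cj (h i)) = ((∑ j, ‖h i j‖ ^ 2 : ℝ) : ℂ) := by
    unfold dt cj
    push_cast
    refine Finset.sum_congr rfl fun j _ => ?_
    rw [Complex.mul_conj, Complex.normSq_eq_norm_sq]
    push_cast
    rfl
  rw [h2] at h1
  have h3 : ∑ j, ‖h i j‖ ^ 2 = 1 := by exact_mod_cast h1
  have h4 : ‖h i j‖ ^ 2 ≤ ∑ j, ‖h i j‖ ^ 2 :=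
    Finset.single_le_sum (f := fun j => ‖h i j‖ ^ 2) (fun _ _ => by positivity) (Finset.mem_univ j)
  rw [h3] at h4
  have h5 : 0 ≤ ‖h i j‖ := norm_nonneg _
  nlinarith

/-- the transversality -/
lemma dt_tr (h : Md → C3) (hF : Frame h) (i a b : Md) (hk : a.1.1 + b.1.1 = i.1.1) :
    dt (h a) (kc b.1.1) = dt (h a) (kc i.1.1) := by
  have h1 := hF.perp a
  rw [dt_comm] at h1
  rw [← hk, kc_add, dt_add, h1, zero_add]

lemma cK_pos (h : Md → C3) (i a b : Md) (hk : a.1.1 + b.1.1 = i.1.1) :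
    cK h i a b = -(2 * Real.pi * Complex.I) * dt (h a) (kc b.1.1) * dt (h b) (cj (h i)) := by
  unfold cK
  exact if_pos hk

lemma cK_neg (h : Md → C3) (i a b : Md) (hk : ¬ a.1.1 + b.1.1 = i.1.1) :
    cK h i a b = 0 := by
  unfold cK
  exact if_neg hk

lemma cK_ne (h : Md → C3) (i a b : Md) (hc : cK h i a b ≠ 0) : a.1.1 + b.1.1 = i.1.1 := by
  by_contra hk
  exact hc (cK_neg h i a b hk)

lemma real' (h : Md → C3) (hF : Frame h) (i a b : Md) :
    cK h (br i) (br a) (br b) = conj (cK h i a b) := by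
  by_cases hk : a.1.1 + b.1.1 = i.1.1
  · have hk' : (br a).1.1 + (br b).1.1 = (br i).1.1 := by
      show -a.1.1 + -b.1.1 = -i.1.1
      rw [← hk, neg_add]
    rw [cK_pos h i a b hk, cK_pos h _ _ _ hk', hF.bar i, hF.bar a, hF.bar b]
    have e1 : kc (br b).1.1 = -kc b.1.1 := kc_neg _
    rw [e1, dt_neg, map_mul, map_mul, ← dt_cj, ← dt_cj, cj_kc]
    have e2 : conj (-(2 * (Real.pi : ℂ) * Complex.I)) = 2 * (Real.pi : ℂ) * Complex.I := by
      simp [Complex.conj_ofNat]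
    rw [e2]
    ring
  · have hk' : ¬ (br a).1.1 + (br b).1.1 = (br i).1.1 := by
      intro h1
      apply hk
      have h2 : -a.1.1 + -b.1.1 = -i.1.1 := h1
      rw [← neg_add] at h2
      exact neg_injective h2
    rw [cK_neg h i a b hk, cK_neg h _ _ _ hk', map_zero]

lemma anti' (h : Md → C3) (hF : Frame h) (i a b : Md) :
    cK h i a b = -conj (cK h b (br a) i) := by
  by_cases hk : a.1.1 + b.1.1 = i.1.1
  · have hk' : (br a).1.1 + i.1.1 = b.1.1 := by
      show -a.1.1 + i.1.1 = b.1.1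
      rw [← hk, neg_add_cancel_left]
    rw [cK_pos h i a b hk, cK_pos h _ _ _ hk', hF.bar a, dt_tr h hF i a b hk]
    rw [map_mul, map_mul, ← dt_cj, ← dt_cj, cj_kc, cj_cj, cj_cj]
    have e2 : conj (-(2 * (Real.pi : ℂ) * Complex.I)) = 2 * (Real.pi : ℂ) * Complex.I := by
      simp [Complex.conj_ofNat]
    rw [e2, dt_comm (cj (h i)) (h b)]
    ring
  · have hk' : ¬ (br a).1.1 + i.1.1 = b.1.1 := by
      intro h1
      apply hk
      have h2 : -a.1.1 + i.1.1 = b.1.1 := h1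
      rw [← h2, add_neg_cancel_left]
    rw [cK_neg h i a b hk, cK_neg h _ _ _ hk', map_zero, neg_zero]

lemma dt_le (h : Md → C3) (hF : Frame h) (a : Md) (b : C3) : ‖dt (h a) b‖ ≤ ∑ j, ‖b j‖ := by
  unfold dt
  refine (norm_sum_le _ _).trans (Finset.sum_le_sum fun j _ => ?_)
  rw [norm_mul]
  have h1 := comp_le h hF a j
  have h2 := norm_nonneg (b j)
  nlinarith

lemma bdd' (h : Md → C3) (hF : Frame h) (i : Md) : ∃ R : ℝ, ∀ a b, ‖cK h i a b‖ ≤ R := by
  refine ⟨2 * Real.pi * (∑ j, ‖kc i.1.1 j‖) * (∑ j, ‖cj (h i) j‖), fun a b => ?_⟩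
  have n1 : 0 ≤ ∑ j, ‖kc i.1.1 j‖ := Finset.sum_nonneg fun _ _ => norm_nonneg _
  have n2 : 0 ≤ ∑ j, ‖cj (h i) j‖ := Finset.sum_nonneg fun _ _ => norm_nonneg _
  have hpi := Real.pi_pos
  by_cases hk : a.1.1 + b.1.1 = i.1.1
  · rw [cK_pos h i a b hk, dt_tr h hF i a b hk, norm_mul, norm_mul]
    have e1 : ‖-(2 * (Real.pi : ℂ) * Complex.I)‖ = 2 * Real.pi := by
      rw [norm_neg, norm_mul, norm_mul, Complex.norm_I, Complex.norm_real]
      simp [abs_of_pos hpi]
    rw [e1]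
    have h1 := dt_le h hF a (kc i.1.1)
    have h2 := dt_le h hF b (cj (h i))
    have m1 := norm_nonneg (dt (h a) (kc i.1.1))
    have m2 := norm_nonneg (dt (h b) (cj (h i)))
    exact mul_le_mul (mul_le_mul_of_nonneg_left h1 (by positivity)) h2 m2 (by positivity)
  · rw [cK_neg h i a b hk, norm_zero]
    positivity

lemma two (k : Z3) (s : Set Md) (hs : ∀ b ∈ s, b.1.1 = k) : s.Finite ∧ s.ncard ≤ 2 := by
  have hinj : Set.InjOn (fun b : Md => b.2) s := by
    intro b hb b' hb' he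
    have h1 := hs b hb
    have h2 := hs b' hb'
    exact Prod.ext (Subtype.ext (h1.trans h2.symm)) he
  have hmaps : Set.MapsTo (fun b : Md => b.2) s (Set.univ : Set Bool) := fun _ _ => Set.mem_univ _
  refine ⟨Set.Finite.of_injOn hmaps hinj Set.finite_univ, ?_⟩
  have h3 := Set.ncard_le_ncard_of_injOn (s := s) (t := (Set.univ : Set Bool))
    (fun b : Md => b.2) hmaps hinj Set.finite_univ
  rw [Set.ncard_univ, Nat.card_eq_fintype_card, Fintype.card_bool] at h3
  exact h3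

lemma al_ge (n : ℕ) : 10 ^ 40 ≤ al n ∧ n + 1 ≤ al n := by
  induction n with
  | zero =>
    refine ⟨le_refl _, ?_⟩
    show 0 + 1 ≤ 10 ^ 40
    norm_num
  | succ n ih =>
    obtain ⟨h1, h2⟩ := ih
    have h3 : al (n + 1) = al n ^ (2 * n + 8) := rfl
    have h4 : al n ^ 2 ≤ al n ^ (2 * n + 8) := Nat.pow_le_pow_right (al_pos n) (by omega)
    have h5 : al n * 2 ≤ al n ^ 2 := by
      rw [pow_two]
      exact Nat.mul_le_mul_left _ (le_trans (by norm_num) h1)
    rw [h3]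
    constructor <;> omega

lemma nsq_add (a b : Z3) : nsq (a + b) ≤ 2 * nsq a + 2 * nsq b := by
  unfold nsq
  rw [Finset.mul_sum, Finset.mul_sum, ← Finset.sum_add_distrib]
  refine Finset.sum_le_sum fun j _ => ?_
  rw [Pi.add_apply]
  nlinarith [sq_nonneg (a j - b j)]

lemma sep' (hLV : S_LV) (hS : S_SUMS) (i a b : Md) (hi : σM i = 0)
    (hk : a.1.1 + b.1.1 = i.1.1) (hab : σM a ≠ 0 ∨ σM b ≠ 0) :
    ∃ j, (j = a ∨ j = b) ∧ σM j ≠ 0 ∧ lvM i ≤ lvM j + 1 := by
  obtain ⟨-, -, -, L4, -, -, L7, -, -, -, -⟩ := hLV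
  obtain ⟨-, -, -, S4⟩ := hS
  by_cases ha : σM a = 0
  · have hb : σM b ≠ 0 := by
      rcases hab with h | h
      · exact absurd ha h
      · exact h
    have h1 : i.1.1 - a.1.1 = b.1.1 := by rw [← hk, add_sub_cancel_left]
    have h2 : i.1.1 ≠ a.1.1 := by
      intro h
      rw [h, sub_self] at h1
      exact b.1.2 h1.symm
    have h3 := S4 i a hi ha h2
    rw [h1, ← (L4 b hb).1] at h3
    exact ⟨b, Or.inr rfl, hb, by exact_mod_cast h3⟩
  · by_cases hb : σM b = 0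
    · have h1 : i.1.1 - b.1.1 = a.1.1 := by rw [← hk, add_sub_cancel_right]
      have h2 : i.1.1 ≠ b.1.1 := by
        intro h
        rw [h, sub_self] at h1
        exact a.1.2 h1.symm
      have h3 := S4 i b hi hb h2
      rw [h1, ← (L4 a ha).1] at h3
      exact ⟨a, Or.inl rfl, ha, by exact_mod_cast h3⟩
    · have h1 := nsq_add a.1.1 b.1.1
      rw [hk, ← (L4 a ha).1, ← (L4 b hb).1] at h1
      have h2 := (L7 i hi).1
      unfold NM αM at h2
      have h3 : ((al (lvM i) : ℤ)) ^ 2 ≤ nsq i.1.1 := by exact_mod_cast h2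
      have h4 := al_ge (lvM i)
      have h5 : ((10 : ℤ) ^ 40) * (lvM i + 1) ≤ (al (lvM i) : ℤ) ^ 2 := by
        have h6 : ((10 : ℤ) ^ 40) ≤ (al (lvM i) : ℤ) := by exact_mod_cast h4.1
        have h7 : ((lvM i : ℤ) + 1) ≤ (al (lvM i) : ℤ) := by exact_mod_cast h4.2
        rw [pow_two]
        exact mul_le_mul h6 h7 (by positivity) (by positivity)
      have h8 : lvM i ≤ lvM a + 1 ∨ lvM i ≤ lvM b + 1 := by
        by_contra hc
        push Not at hc
        omega
      rcases h8 with h | h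
      · exact ⟨a, Or.inl rfl, ha, h⟩
      · exact ⟨b, Or.inr rfl, hb, h⟩

theorem t_KERM : Pool.Agent.Y6.M.S_KERM := by
  intro hLV hS h hF
  have hLV' := hLV
  have hS' := hS
  obtain ⟨-, -, -, L4, L5, L6, L7, -, -, -, -⟩ := hLV
  obtain ⟨-, -, S3, S4⟩ := hS
  refine ⟨fun i => (L5 i).1, fun i => (L5 i).2.1, fun i => (L5 i).2.2, ?_, L6, real' h hF,
    anti' h hF, bdd' h hF, ⟨2, ?_⟩, ?_, ?_⟩
  · intro i
    by_cases hi : σM i = 0
    · exact Or.inl hi
    · exact Or.inr (L4 i hi).2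
  · intro i a
    constructor
    · refine two (i.1.1 - a.1.1) _ fun b hb => ?_
      have h1 := cK_ne h i a b hb
      rw [← h1, add_sub_cancel_left]
    · refine two (i.1.1 - a.1.1) _ fun b hb => ?_
      have h1 := cK_ne h i b a hb
      rw [← h1, add_sub_cancel_right]
  · intro i
    refine (S3 i.1.1 i.1.2).subset ?_
    rintro p ⟨h1, h2, h3⟩
    exact ⟨h1, h2, cK_ne h i _ _ h3⟩
  · intro i a b hi hc hab
    exact sep' hLV' hS' i a b hi (cK_ne h i a b hc) hab

end Pool.Agent.Y708.EM.KERM
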